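import Pool.Agent.MP_52bf41_ag.H31.MSAlg
import Pool.Agent.MP_52bf41_ag.H12.Thick

/-! The projective model over a normal form has a standard atlas. -/

open AlgebraicGeometry CategoryTheory Limits Polynomial

namespace Pool.Agent.MP_52bf41_ag.H31

open H1 H12

variable {D : ℕ} {𝒜 : Atlas (BB D) (Option (Fin (D + 1))) (Eqs D)} {A : Type} [CommRing A]
  {φ : BB D →+* A} {q t : Fin D → A} {C : Scheme.{0}} {p : C ⟶ Spec (.of A)} {c : C ⟶ 𝒜.C}

/-- The affine coordinates on the preimage of a chart. -/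
noncomputable def YY (c : C ⟶ 𝒜.C) (k l : Option (Fin (D + 1))) : Γ(C, c ⁻¹ᵁ 𝒜.Dk k) :=
  pl c le_rfl (𝒜.Y k l)

theorem YY_self (k : Option (Fin (D + 1))) : YY c k k = 1 := by
  rw [YY, 𝒜.self, map_one]

theorem basicOpen_YY (k l : Option (Fin (D + 1))) :
    C.basicOpen (YY c k l) = c ⁻¹ᵁ 𝒜.Dk k ⊓ c ⁻¹ᵁ 𝒜.Dk l := by
  rw [YY, basicOpen_pl, ← 𝒜.inter]
  ext x
  simp

theorem YY_trans (k l m : Option (Fin (D + 1))) {W : C.Opens} (h1 : W ≤ c ⁻¹ᵁ 𝒜.Dk k)
    (h2 : W ≤ c ⁻¹ᵁ 𝒜.Dk l) : res h1 (YY c k l) * res h2 (YY c l m) = res h1 (YY c k m) := by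
  have hW : W ≤ c ⁻¹ᵁ (𝒜.Dk k ⊓ 𝒜.Dk l) := fun x hx => ⟨h1 hx, h2 hx⟩
  have := congrArg (pl c hW) (𝒜.trans k l m)
  simpa only [map_mul, pl_res, YY, res_pl] using this

theorem pl_comp (h : IsPullback c p 𝒜.π (Spec.map (CommRingCat.ofHom φ)))
    (k : Option (Fin (D + 1))) :
    (pl c le_rfl).comp (MvPolynomial.eval₂Hom (alg 𝒜.π (𝒜.Dk k)) (𝒜.Y k)) =
      MvPolynomial.eval₂Hom ((alg p (c ⁻¹ᵁ 𝒜.Dk k)).comp φ) (YY c k) := by
  refine MvPolynomial.ringHom_ext (fun a => ?_) fun a => ?_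
  · rw [RingHom.comp_apply, MvPolynomial.eval₂Hom_C, MvPolynomial.eval₂Hom_C, pl_alg, h.w,
      alg_spec, RingHom.comp_apply]
  · rw [RingHom.comp_apply, MvPolynomial.eval₂Hom_X', MvPolynomial.eval₂Hom_X', YY]

theorem mat_comp (hφ : mat φ = nf q t) {R : Type} [CommRing R] (g : A →+* R) :
    mat (g.comp φ) = (nf q t).map g := by
  rw [← hφ]; rfl

theorem ch (hφ : mat φ = nf q t) (h : IsPullback c p 𝒜.π (Spec.map (CommRingCat.ofHom φ)))
    (k : Option (Fin (D + 1))) : Ch q t k (alg p (c ⁻¹ᵁ 𝒜.Dk k)) (YY c k) := by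
  have hm : Mnr ((nf q t).map (alg p (c ⁻¹ᵁ 𝒜.Dk k))) (YY c k) := by
    rw [← mat_comp hφ, ← eqs_iff, ← pl_comp h]
    intro e he
    rw [RingHom.comp_apply, (𝒜.ker k e).2 (Ideal.subset_span (Set.mem_insert_of_mem _ he)),
      map_zero]
  have hu : ∀ (R : Type) [CommRing R] (g : A →+* R) (y : Option (Fin (D + 1)) → R), y k = 1 →
      Mnr ((nf q t).map g) y → ∃ l : Γ(C, c ⁻¹ᵁ 𝒜.Dk k) →+* R,
        l.comp (alg p _) = g ∧ ∀ m, l (YY c k m) = y m := by
    intro R _ g y hy hM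
    rw [← mat_comp hφ, ← eqs_iff] at hM
    have hker : RingHom.ker (MvPolynomial.eval₂Hom (alg 𝒜.π (𝒜.Dk k)) (𝒜.Y k)) ≤
        RingHom.ker (MvPolynomial.eval₂Hom (g.comp φ) y) := fun e he => by
      refine (Ideal.span_le.2 ?_ : _ ≤ RingHom.ker _) ((𝒜.ker k e).1 he)
      rintro e (rfl | he)
      · simp [RingHom.mem_ker, hy]
      · exact hM e he
    let f := RingHom.liftOfSurjective _ (𝒜.surj k) ⟨_, hker⟩
    have hf : f.comp (MvPolynomial.eval₂Hom (alg 𝒜.π (𝒜.Dk k)) (𝒜.Y k)) =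
        MvPolynomial.eval₂Hom (g.comp φ) y := RingHom.liftOfSurjective_comp _ _ _
    obtain ⟨l, h1, h2⟩ := exists_lift_preimage h (𝒜.aff k) f g (RingHom.ext fun a => by
      simpa using RingHom.congr_fun hf (MvPolynomial.C a))
    refine ⟨l, h2, fun m => ?_⟩
    have := RingHom.congr_fun hf (MvPolynomial.X m)
    rw [RingHom.comp_apply, MvPolynomial.eval₂Hom_X', MvPolynomial.eval₂Hom_X', ← h1] at this
    exact this
  refine ⟨YY_self k, hm, ?_, hu⟩
  let S := (MvPolynomial.eval₂Hom (alg p (c ⁻¹ᵁ 𝒜.Dk k)) (YY c k)).range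
  let g : A →+* S := (alg p _).codRestrict S fun a => ⟨MvPolynomial.C a, by simp⟩
  let y : Option (Fin (D + 1)) → S := fun m => ⟨YY c k m, MvPolynomial.X m, by simp⟩
  obtain ⟨l, h1, h2⟩ := hu S g y (Subtype.ext (YY_self k)) fun a b => by
    apply S.subtype_injective
    rw [map_mul, map_mul, vv_map, vv_map]
    exact hm a b
  have hid : S.subtype.comp l = RingHom.id _ := by
    have e2 : (S.subtype.comp l).comp (alg p _) = (RingHom.id _).comp (alg p _) := by
      rw [RingHom.comp_assoc, h1]; rfl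
    refine hom_ext_preimage h (𝒜.aff k) ?_ e2
    refine (RingHom.cancel_right (𝒜.surj k)).1 ?_
    rw [RingHom.comp_assoc, RingHom.comp_assoc _ _ (RingHom.id _), pl_comp h]
    refine MvPolynomial.ringHom_ext (fun a => ?_) fun a => ?_
    · rw [RingHom.comp_apply, RingHom.comp_apply (RingHom.id _), MvPolynomial.eval₂Hom_C]
      exact RingHom.congr_fun e2 (φ a)
    · rw [RingHom.comp_apply, RingHom.comp_apply (RingHom.id _), MvPolynomial.eval₂Hom_X',
        RingHom.comp_apply, h2]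
      rfl
  intro b
  have := (l b).2
  rwa [show ((l b : S) : Γ(C, c ⁻¹ᵁ 𝒜.Dk k)) = b from RingHom.congr_fun hid b] at this

theorem sec_aux (H : RepAPI 𝒜) {T : Scheme.{0}} (τ : T ⟶ C) {y : Option (Fin (D + 1)) → Γ(T, ⊤)}
    (hy : 𝒜.Rep (τ ≫ c) ⊤ y) (k : Option (Fin (D + 1))) (hk : ∀ m, ∃ r, y m = r * y k) :
    ∃ h : ⊤ ≤ τ ⁻¹ᵁ c ⁻¹ᵁ 𝒜.Dk k, ∀ m r, y m = r * y k → pl τ h (YY c k m) = r := by
  have h1 : ⊤ ≤ T.basicOpen (y k) := (H.unimod hy).trans (iSup_le fun m => by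
    obtain ⟨r, hr⟩ := hk m
    rw [hr, Scheme.basicOpen_mul]
    exact inf_le_right)
  have h2 : ⊤ ≤ τ ⁻¹ᵁ c ⁻¹ᵁ 𝒜.Dk k := h1.trans ((hy k).1.le.trans inf_le_right)
  refine ⟨h2, fun m r hr => ?_⟩
  have h3 := H.cross hy (H.pull τ h2 (H.self c k)) k m
  have h4 : pl τ h2 (pl c le_rfl (𝒜.Y k k)) = 1 := by rw [𝒜.self, map_one, map_one]
  simp only [h4, mul_one, hr] at h3
  exact (isUnit_of_basicOpen _ h1).mul_left_cancel (h3.trans (mul_comm _ _))

theorem ev_eq {τ : Spec (.of A) ⟶ C} {O : C.Opens} {h : ⊤ ≤ τ ⁻¹ᵁ O} {b : Γ(C, O)} {a : A}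
    (e : pl τ h b = pb (𝟙 _) a) : ev τ h b = a :=
  pb_id_bijective.1 ((pb_ev τ h b).trans e)

theorem sec_lin {R : Type} [CommRing R] {y : Option (Fin (D + 1)) → R} {r : R}
    (h0 : y none = r * y (some 0))
    (h : ∀ i : Fin D, ∃ u v, IsUnit u ∧ u * y (some i.succ) = v * y (some 0)) :
    ∀ m, ∃ r, y m = r * y (some 0) := by
  intro m
  rcases kk_cases m with rfl | ⟨_ | i, rfl⟩
  · exact ⟨1, (one_mul _).symm⟩
  · exact ⟨r, h0⟩
  · obtain ⟨u, v, hu, e⟩ := h i
    obtain ⟨w, hw⟩ := hu.exists_left_inv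
    refine ⟨w * v, ?_⟩
    change y (some i.succ) = _
    linear_combination w * e - y (some i.succ) * hw

theorem ms : SMS := by
  intro D 𝒜 H A _ φ q t F c hq hφ h hσ
  have hc := ch hφ h
  let U : Option (Fin (D + 1)) → F.C.Opens := fun k => c ⁻¹ᵁ 𝒜.Dk k
  have hU : ∀ k, IsAffineOpen (U k) := fun k => isAffineOpen_preimage h (𝒜.aff k)
  let g : ∀ a, Γ(F.C, U (kk a)) := fun a =>
    (gpol q t a).eval₂ (alg F.π _) (YY c (kk a) (some 0))
  have hle : ∀ a, F.C.basicOpen (g a) ≤ U (kk a) := fun a => F.C.basicOpen_le _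
  obtain ⟨y0, r0, s0⟩ := hσ 0
  obtain ⟨y1, r1, s1⟩ := hσ 1
  obtain ⟨y2, r2, s2⟩ := hσ 2
  have s0' : ∀ a, vv ((nf q t).map (pb (𝟙 _))) y0 a = 0 := congrFun s0
  have s1' : ∀ a, vv ((nf q t).map (pb (𝟙 _))) y1 a = y1 (some a) := congrFun s1
  have s2' : ∀ a, y2 (some a) = 0 := congrFun s2
  have n0 : y0 none = 0 * y0 (some 0) := (s0' 0).trans (zero_mul _).symm
  have n1 : y1 none = 1 * y1 (some 0) := (s1' 0).trans (one_mul _).symm
  have n2 : y2 (some 0) = 0 * y2 none := (s2' 0).trans (zero_mul _).symm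
  obtain ⟨h0, e0⟩ := sec_aux H (F.σ 0) r0 (some 0) (sec_lin n0 fun i =>
    ⟨_, -pb (𝟙 _) (t i), (hq.2 i).1.map (pb (𝟙 _)), by
      have := s0' i.succ
      rw [vv_succ] at this
      linear_combination this⟩)
  obtain ⟨h1, e1⟩ := sec_aux H (F.σ 1) r1 (some 0) (sec_lin n1 fun i =>
    ⟨_, -pb (𝟙 _) (t i), (hq.2 i).2.map (pb (𝟙 _)), by
      have := s1' i.succ
      rw [vv_succ] at this
      rw [map_sub, map_one]
      linear_combination this⟩)
  obtain ⟨h2, e2⟩ := sec_aux H (F.σ 2) r2 none fun m => by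
    rcases m with _ | m
    · exact ⟨1, (one_mul _).symm⟩
    · exact ⟨0, (s2' m).trans (zero_mul _).symm⟩
  have h2' : ⊤ ≤ F.σ 2 ⁻¹ᵁ F.C.basicOpen (g none) := by
    obtain ⟨r, w, hw, e⟩ := gpol_eq (t := t) hq (alg F.π _) (YY c none (some 0)) none
    have hu : IsUnit (pl (F.σ 2) h2 (g none)) := by
      rw [show g none = _ from e, map_add, map_mul, e2 _ _ n2, mul_zero, add_zero]
      exact hw.map _
    have := basicOpen_of_isUnit hu
    rw [basicOpen_pl] at this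
    exact this.ge.trans inf_le_right
  refine ⟨{
    O0 := U (some 0)
    O := fun a => F.C.basicOpen (g a)
    aff0 := hU _
    aff := fun a => (hU _).basicOpen _
    cover := ?_
    disj := fun a b hab x hx => ?_
    u := fun a => YY c (some 0) (kk a)
    s := fun a => res (hle a) (YY c (kk a) (some 0))
    pres := (hc _).pres
    loc := fun a => ?_
    inter0 := fun a => ?_
    inter := fun a => ?_
    us := fun a => ?_
    h0 := h0
    h1 := h1
    h2 := h2'
    e0 := ev_eq ((e0 _ _ n0).trans (map_zero _).symm)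
    e1 := ev_eq ((e1 _ _ n1).trans (map_one _).symm)
    e2 := ev_eq (((pl_res _ _ _ _).trans (e2 _ _ n2)).trans (map_zero _).symm) }, ?_⟩
  · refine top_le_iff.1 fun x _ => ?_
    obtain ⟨k, hk⟩ := TopologicalSpace.Opens.mem_iSup.1 (𝒜.cover.ge (Set.mem_univ (c x)))
    rcases kk_cases k with rfl | ⟨a, rfl⟩
    · exact Or.inl hk |> TopologicalSpace.Opens.mem_sup.2
    · by_cases hs : x ∈ F.C.basicOpen (YY c (kk a) (some 0))
      · rw [basicOpen_YY] at hs
        exact TopologicalSpace.Opens.mem_sup.2 (Or.inl hs.2)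
      · refine TopologicalSpace.Opens.mem_sup.2 (Or.inr (TopologicalSpace.Opens.mem_iSup.2 ⟨a, ?_⟩))
        by_contra hx
        obtain ⟨r, w, hw, e⟩ := gpol_eq (t := t) hq (alg F.π _) (YY c (kk a) (some 0)) a
        have := not_mem_basicOpen_add hx (not_mem_basicOpen_mul (-r) hs)
        rw [show g a + -r * YY c (kk a) (some 0) = w by rw [show g a = _ from e]; ring,
          basicOpen_of_isUnit hw] at this
        exact this hk
  · obtain ⟨P, hP⟩ := (hc (kk a)).div (kk b) fun e => hab (kk_inj e).symm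
    have h3 : x ∈ F.C.basicOpen (YY c (kk a) (kk b)) := by
      rw [basicOpen_YY]; exact ⟨hle a hx.1, hle b hx.2⟩
    have h4 := mem_basicOpen_mul.2 ⟨h3, hx.1⟩
    rw [show YY c (kk a) (kk b) * g a = _ from hP, mem_basicOpen_mul, basicOpen_YY] at h4
    exact h4.1.2
  · have := (hc (kk a)).away (res (hle a)) (isAway_res (hU _) (g a) (hle a) rfl)
    rwa [show (res (hle a)).comp (alg F.π _) = alg F.π _ from RingHom.ext fun r => res_alg _ _ _]
      at this
  · have hus : res (inf_le_left : U (some 0) ⊓ U (kk a) ≤ _) (YY c (some 0) (kk a)) *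
        res inf_le_right (YY c (kk a) (some 0)) = 1 := by
      rw [YY_trans, YY_self, map_one]
    obtain ⟨n, hn⟩ := hpol_eq (q := q) (t := t) (alg F.π (U (some 0) ⊓ U (kk a)))
      (fun b => res inf_le_left (YY c (some 0) (kk b))) _ a hus fun i => by
        have := congrArg (res (inf_le_left : U (some 0) ⊓ U (kk a) ≤ _)) ((hc (some 0)).rel i)
        rwa [map_mul, map_sub, res_alg, res_alg] at this
    have e3 : res (inf_le_left : U (some 0) ⊓ U (kk a) ≤ _) (MvPolynomial.eval₂Hom (alg F.π _)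
        (fun b => YY c (some 0) (kk b)) (hpol q a)) =
        res inf_le_left (YY c (some 0) (kk a)) ^ (n + 1) * res inf_le_right (g a) := by
      rw [MvPolynomial.map_eval₂Hom, hom_eval₂,
        show (res inf_le_left).comp (alg F.π _) = alg F.π _ from RingHom.ext fun r => res_alg _ _ _,
        show (res inf_le_right).comp (alg F.π _) = alg F.π _ from RingHom.ext fun r => res_alg _ _ _]
      exact hn
    obtain ⟨r, hr⟩ := hpol_dvd (q := q) (alg F.π _) (fun b => YY c (some 0) (kk b)) a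
    have e4 := congrArg F.C.basicOpen e3
    rw [Scheme.basicOpen_mul, basicOpen_of_isUnit ((IsUnit.of_mul_eq_one _ hus).pow _),
      basicOpen_res, basicOpen_res] at e4
    have e5 : F.C.basicOpen (MvPolynomial.eval₂Hom (alg F.π _)
        (fun b => YY c (some 0) (kk b)) (hpol q a)) ≤ U (some 0) ⊓ U (kk a) := by
      rw [hr, Scheme.basicOpen_mul, basicOpen_YY]
      exact inf_le_right
    rw [inf_eq_right.2 e5] at e4
    rw [e4, ← inf_assoc, inf_idem, inf_assoc, inf_eq_right.2 (hle a)]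
  · rw [basicOpen_res, basicOpen_YY, ← inf_assoc, inf_eq_left.2 (hle a), inf_comm]
  · rw [res_res, YY_trans, YY_self, map_one]
  · have := H.self c (some 0)
    convert this using 2 with k
    rcases kk_cases k with rfl | ⟨_ | i, rfl⟩
    · exact (YY_self _).symm
    · rfl
    · rfl

end Pool.Agent.MP_52bf41_ag.H31
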