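import Pool.Agent.MP_52bf41_ag.H12.Spec

/-! The chart rings of the projective model over a normal form. -/

open Polynomial

namespace Pool.Agent.MP_52bf41_ag.H31

open H1 H12

variable {A B R : Type} [CommRing A] [CommRing B] [CommRing R] {D : ℕ}

/-- The homogeneous coordinate which is invertible on a pole chart. -/
def kk : Option (Fin D) → Option (Fin (D + 1))
  | none => none
  | some i => some i.succ

theorem kk_inj : Function.Injective (kk : Option (Fin D) → _) := by
  rintro (_ | i) (_ | l) h <;> simp_all [kk]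

theorem kk_cases (m : Option (Fin (D + 1))) : m = some 0 ∨ ∃ a, m = kk a := by
  rcases m with _ | m
  · exact Or.inr ⟨none, rfl⟩
  · rcases Fin.eq_zero_or_eq_succ m with rfl | ⟨i, rfl⟩
    · exact Or.inl rfl
    · exact Or.inr ⟨some i, rfl⟩

theorem vv_succ (q t : Fin D → A) (α : A →+* R) (y : Option (Fin (D + 1)) → R) (i : Fin D) :
    vv ((nf q t).map α) y i.succ = α (t i) * y (some 0) + α (q i) * y (some i.succ) := by
  simp only [vv, Fin.cons_succ, Matrix.mulVec, dotProduct, Fin.sum_univ_succ, nf, Matrix.map_apply,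
    Matrix.of_apply, Fin.cons_zero]
  congr 1
  rw [Finset.sum_eq_single i]
  · simp
  · intro l _ hl
    simp [hl]
  · simp

/-- The vanishing of the minors. -/
def Mnr (M : Matrix (Fin D) (Fin (D + 1)) R) (y : Option (Fin (D + 1)) → R) : Prop :=
  ∀ a b, y (some a) * vv M y b = y (some b) * vv M y a

theorem vv_map {S : Type} [CommRing S] (f : R →+* S) (M : Matrix (Fin D) (Fin (D + 1)) R)
    (y : Option (Fin (D + 1)) → R) (a : Fin (D + 1)) :
    f (vv M y a) = vv (M.map f) (fun m => f (y m)) a := by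
  refine Fin.cases rfl (fun i => ?_) a
  simp [vv, Matrix.mulVec, dotProduct]

theorem eqs_iff (g : BB D →+* R) (y : Option (Fin (D + 1)) → R) :
    (∀ e ∈ Eqs D, MvPolynomial.eval₂Hom g y e = 0) ↔ Mnr (mat g) y := by
  have key : ∀ a, MvPolynomial.eval₂Hom g y
      (vv (mat (MvPolynomial.C : BB D →+* _)) MvPolynomial.X a) = vv (mat g) y a := fun a => by
    rw [vv_map]
    congr 1
    · ext i j
      simp [mat, pencil]
    · ext m
      simp
  constructor
  · intro h a b
    have := h _ ⟨a, b, rfl⟩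
    rw [map_sub, map_mul, map_mul, key, key, sub_eq_zero] at this
    simpa using this
  · rintro h _ ⟨a, b, rfl⟩
    rw [map_sub, map_mul, map_mul, key, key, sub_eq_zero]
    simpa using h a b

theorem mnr_of_left {M : Matrix (Fin D) (Fin (D + 1)) R} {y : Option (Fin (D + 1)) → R} (r : R)
    (h : ∀ a, vv M y a = r * y (some a)) : Mnr M y := fun a b => by
  rw [h, h]; ring

theorem mnr_of_right {M : Matrix (Fin D) (Fin (D + 1)) R} {y : Option (Fin (D + 1)) → R} (r : R)
    (h : ∀ a, y (some a) = r * vv M y a) : Mnr M y := fun a b => by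
  rw [h a, h b]; ring

/-- `B` is the ring of the chart `y k = 1`. -/
structure Ch (q t : Fin D → A) (k : Option (Fin (D + 1))) (α : A →+* B)
    (Y : Option (Fin (D + 1)) → B) : Prop where
  self : Y k = 1
  mnr : Mnr ((nf q t).map α) Y
  surj : Function.Surjective (MvPolynomial.eval₂Hom α Y)
  univ : ∀ (R : Type) [CommRing R] (g : A →+* R) (y : Option (Fin (D + 1)) → R), y k = 1 →
    Mnr ((nf q t).map g) y → ∃ l : B →+* R, l.comp α = g ∧ ∀ m, l (Y m) = y m

variable {q t : Fin D → A} {α : A →+* B} {Y : Option (Fin (D + 1)) → B}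

theorem Ch.rel (h : Ch q t (some 0) α Y) (i : Fin D) :
    (Y none - α (q i)) * Y (some i.succ) = α (t i) := by
  have := h.mnr 0 i.succ
  rw [vv_succ, h.self] at this
  have e : vv ((nf q t).map α) Y 0 = Y none := rfl
  rw [e] at this
  linear_combination -this

theorem Ch.pres (h : Ch q t (some 0) α Y) : Pres α (fun a => Y (kk a)) q t := by
  refine ⟨fun b => ?_, fun p => ⟨fun hp => ?_, fun hp => ?_⟩⟩
  · obtain ⟨p, rfl⟩ := h.surj b
    change _ ∈ (MvPolynomial.eval₂Hom α fun a => Y (kk a)).range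
    induction p using MvPolynomial.induction_on with
    | C a => exact ⟨MvPolynomial.C a, by simp⟩
    | add p p' h1 h2 => rw [map_add]; exact add_mem h1 h2
    | mul_X p m h1 =>
      rw [map_mul, MvPolynomial.eval₂Hom_X']
      refine mul_mem h1 ?_
      rcases kk_cases m with rfl | ⟨a, rfl⟩
      · rw [h.self]; exact one_mem _
      · exact ⟨MvPolynomial.X a, by simp⟩
  · let π := Ideal.Quotient.mk (Ideal.span (Set.range (H12.rel q t)))
    let y : Option (Fin (D + 1)) → _ := fun m =>
      m.elim (π (MvPolynomial.X none)) (Fin.cons 1 fun i => π (MvPolynomial.X (some i)))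
    obtain ⟨l, hl1, hl2⟩ := h.univ _ (π.comp MvPolynomial.C) y rfl
      (mnr_of_left (π (MvPolynomial.X none)) fun a => by
        refine Fin.cases (mul_one _).symm (fun i => ?_) a
        have h0 : π (H12.rel q t i) = 0 :=
          Ideal.Quotient.eq_zero_iff_mem.2 (Ideal.subset_span ⟨i, rfl⟩)
        rw [vv_succ]
        simp only [H12.rel, map_sub, map_mul] at h0
        simp only [y, Option.elim, Fin.cons_zero, Fin.cons_succ, RingHom.comp_apply]
        linear_combination -h0)
    have e : l.comp (MvPolynomial.eval₂Hom α fun a => Y (kk a)) = π := by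
      refine MvPolynomial.ringHom_ext (fun a => ?_) fun a => ?_
      · simpa using RingHom.congr_fun hl1 a
      · rw [RingHom.comp_apply, MvPolynomial.eval₂Hom_X', hl2]
        cases a <;> rfl
    rw [← Ideal.Quotient.eq_zero_iff_mem]
    change π p = 0
    rw [← e, RingHom.comp_apply, hp, map_zero]
  · have : Ideal.span (Set.range (H12.rel q t)) ≤
        RingHom.ker (MvPolynomial.eval₂Hom α fun a => Y (kk a)) := by
      rw [Ideal.span_le]
      rintro _ ⟨i, rfl⟩
      have := h.rel i
      simp only [SetLike.mem_coe, RingHom.mem_ker, H12.rel, map_sub, map_mul,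
        MvPolynomial.eval₂Hom_X', MvPolynomial.eval₂Hom_C, kk]
      rw [this, sub_self]
    exact this hp

theorem Ch.div {a : Option (Fin D)} (h : Ch q t (kk a) α Y) (m : Option (Fin (D + 1)))
    (hm : m ≠ kk a) : ∃ P : A[X], Y m * (gpol q t a).eval₂ α (Y (some 0)) =
      Y (some 0) * P.eval₂ α (Y (some 0)) := by
  have e0 : vv ((nf q t).map α) Y 0 = Y none := rfl
  rcases kk_cases m with rfl | ⟨b, rfl⟩
  · exact ⟨_, rfl⟩
  have hs := h.self
  rcases a with _ | i <;> rcases b with _ | l
  · exact absurd rfl hm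
  · have h1 := h.mnr 0 l.succ
    rw [vv_succ, e0, show Y none = 1 from hs] at h1
    refine ⟨C (t l) * X * ∏ j ∈ Finset.univ.erase l, (1 - C (q j) * X), ?_⟩
    simp only [gpol, kk]
    rw [← Finset.mul_prod_erase _ _ (Finset.mem_univ l)]
    simp only [eval₂_mul, eval₂_sub, eval₂_one, eval₂_C, eval₂_X]
    linear_combination
      (-(eval₂ α (Y (some 0)) (∏ j ∈ Finset.univ.erase l, (1 - C (q j) * X)))) * h1
  · have h1 := h.mnr 0 i.succ
    rw [vv_succ, e0, show Y (some i.succ) = 1 from hs] at h1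
    refine ⟨(C (q i) + C (t i) * X) * gpol q t (some i), ?_⟩
    simp only [eval₂_mul, eval₂_add, eval₂_C, eval₂_X, kk]
    linear_combination (-(eval₂ α (Y (some 0)) (gpol q t (some i)))) * h1
  · have hl : l ≠ i := fun e => hm (by rw [e])
    have h1 := h.mnr i.succ l.succ
    rw [vv_succ, vv_succ, show Y (some i.succ) = 1 from hs] at h1
    refine ⟨C (t l) * ∏ j ∈ (Finset.univ.erase i).erase l, (C (q i - q j) + C (t i) * X), ?_⟩
    simp only [gpol, kk]
    rw [← Finset.mul_prod_erase _ _ (Finset.mem_erase.2 ⟨hl, Finset.mem_univ l⟩)]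
    simp only [eval₂_mul, eval₂_add, eval₂_C, eval₂_X, map_sub, eval₂_sub]
    linear_combination (-(eval₂ α (Y (some 0))
      (∏ j ∈ (Finset.univ.erase i).erase l, (C (q i) - C (q j) + C (t i) * X)))) * h1

theorem Ch.lift {a : Option (Fin D)} (h : Ch q t (kk a) α Y) (f : A[X] →+* R)
    (hf : IsUnit (f (gpol q t a))) : ∃ l : B →+* R, l.comp α = f.comp C ∧ l (Y (some 0)) = f X := by
  rcases a with _ | i
  · have hu : ∀ l, ∃ v, f (1 - C (q l) * X) * v = 1 := fun l =>
      (isUnit_of_dvd_unit (_root_.map_dvd f (Finset.dvd_prod_of_mem _ (Finset.mem_univ l)))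
        hf).exists_right_inv
    choose v hv using hu
    obtain ⟨l, h1, h2⟩ := h.univ R (f.comp C)
      (fun m => m.elim 1 (Fin.cons (f X) fun l => f (C (t l)) * f X ^ 2 * v l)) rfl
      (mnr_of_right (f X) fun b => by
        refine Fin.cases (mul_one _).symm (fun l => ?_) b
        have := hv l
        rw [vv_succ]
        simp only [map_sub, map_mul, map_one] at this
        simp only [Option.elim, Fin.cons_zero, Fin.cons_succ, RingHom.comp_apply]
        linear_combination (f (C (t l)) * f X ^ 2) * this)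
    exact ⟨l, h1, h2 _⟩
  · have hu : ∀ l, ∃ v, l ≠ i → f (C (q i - q l) + C (t i) * X) * v = 1 := fun l => by
      by_cases hl : l = i
      · exact ⟨0, fun h => absurd hl h⟩
      · obtain ⟨v, hv⟩ := (isUnit_of_dvd_unit (_root_.map_dvd f (Finset.dvd_prod_of_mem
          (fun l => C (q i - q l) + C (t i) * X)
          (Finset.mem_erase.2 ⟨hl, Finset.mem_univ l⟩))) hf).exists_right_inv
        exact ⟨v, fun _ => hv⟩
    choose v hv using hu
    obtain ⟨l, h1, h2⟩ := h.univ R (f.comp C)
      (fun m => m.elim ((f (C (q i)) + f (C (t i)) * f X) * f X)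
        (Fin.cons (f X) fun l => if l = i then 1 else f (C (t l)) * f X * v l))
      (by simp [kk])
      (mnr_of_left (f (C (q i)) + f (C (t i)) * f X) fun b => by
        refine Fin.cases rfl (fun l => ?_) b
        rw [vv_succ]
        simp only [Option.elim, Fin.cons_zero, Fin.cons_succ, RingHom.comp_apply]
        split_ifs with hl
        · rw [hl]; ring
        · have := hv l hl
          simp only [map_sub, map_mul, map_add] at this
          linear_combination (-(f (C (t l)) * f X)) * this)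
    exact ⟨l, h1, h2 _⟩

theorem Ch.away {a : Option (Fin D)} (h : Ch q t (kk a) α Y) (ψ : B →+* R)
    (hψ : IsAway ψ ((gpol q t a).eval₂ α (Y (some 0)))) :
    IsAway (eval₂RingHom (ψ.comp α) (ψ (Y (some 0)))) (gpol q t a) := by
  set s := Y (some 0) with hs
  set g := gpol q t a with hg
  have hc : ∀ P : A[X], eval₂RingHom (ψ.comp α) (ψ s) P = ψ (P.eval₂ α s) := fun P =>
    (hom_eval₂ P α ψ s).symm
  have h1 : ∀ b : B, ∃ (n : ℕ) (P : A[X]), b * g.eval₂ α s ^ n = P.eval₂ α s := fun b => by
    obtain ⟨p, rfl⟩ := h.surj b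
    induction p using MvPolynomial.induction_on with
    | C a => exact ⟨0, C a, by simp⟩
    | add p p' h1 h2 =>
      obtain ⟨n, P, h1⟩ := h1
      obtain ⟨n', P', h2⟩ := h2
      refine ⟨n + n', P * g ^ n' + P' * g ^ n, ?_⟩
      rw [map_add, eval₂_add, eval₂_mul, eval₂_mul, eval₂_pow, eval₂_pow, ← h1, ← h2]
      ring
    | mul_X p m h1 =>
      obtain ⟨n, P, h1⟩ := h1
      rw [map_mul, MvPolynomial.eval₂Hom_X']
      by_cases hm : m = kk a
      · rw [hm, h.self, mul_one]
        exact ⟨n, P, h1⟩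
      · obtain ⟨Q, hQ⟩ := h.div m hm
        refine ⟨n + 1, P * (X * Q), ?_⟩
        rw [eval₂_mul, eval₂_mul, eval₂_X, ← h1, ← hQ]
        ring
  letI := ψ.toAlgebra
  letI := (eval₂RingHom (ψ.comp α) (ψ s)).toAlgebra
  have hψ' : IsLocalization.Away (g.eval₂ α s) R := hψ
  refine IsLocalization.Away.mk g ?_ (fun r => ?_) fun P P' e => ?_
  · rw [RingHom.algebraMap_toAlgebra, hc]
    exact IsLocalization.Away.algebraMap_isUnit (S := R) (g.eval₂ α s)
  · obtain ⟨n, b, hb⟩ := IsLocalization.Away.surj (g.eval₂ α s) r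
    obtain ⟨m, P, hP⟩ := h1 b
    refine ⟨n + m, P, ?_⟩
    rw [RingHom.algebraMap_toAlgebra] at hb ⊢
    rw [hc, hc, ← hP, map_mul, ← hb, map_pow]
    ring
  · rw [RingHom.algebraMap_toAlgebra, hc, hc] at e
    obtain ⟨n, hn⟩ := IsLocalization.Away.exists_of_eq (S := R) (g.eval₂ α s) e
    obtain ⟨l, hl1, hl2⟩ := h.lift (algebraMap A[X] (Localization.Away g))
      (IsLocalization.Away.algebraMap_isUnit g)
    have hl : ∀ P : A[X], l (P.eval₂ α s) = algebraMap A[X] (Localization.Away g) P := fun P => by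
      rw [hom_eval₂, hl1, hl2, ← hom_eval₂, eval₂_C_X]
    have := congrArg l hn
    rw [map_mul, map_mul, map_pow, hl, hl, hl, ← map_pow, ← map_mul, ← map_mul] at this
    obtain ⟨m, hm⟩ := IsLocalization.Away.exists_of_eq (S := Localization.Away g) g this
    exact ⟨m + n, by rw [pow_add, mul_assoc, mul_assoc, hm]⟩

theorem hpol_eq (α : A →+* R) (u : Option (Fin D) → R) (s : R) (a : Option (Fin D))
    (hs : u a * s = 1) (hr : ∀ i, (u none - α (q i)) * u (some i) = α (t i)) :
    ∃ n : ℕ, MvPolynomial.eval₂Hom α u (hpol q a) = u a ^ (n + 1) * (gpol q t a).eval₂ α s := by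
  rcases a with _ | i
  · refine ⟨D, ?_⟩
    simp only [hpol, gpol, map_mul, map_prod, map_sub, MvPolynomial.eval₂Hom_X',
      MvPolynomial.eval₂Hom_C, eval₂_finsetProd, eval₂_sub, eval₂_one, eval₂_mul, eval₂_C, eval₂_X]
    rw [pow_succ', mul_assoc]
    congr 1
    have : u none ^ D = ∏ _i : Fin D, u none := by simp
    rw [this, ← Finset.prod_mul_distrib]
    exact Finset.prod_congr rfl fun i _ => by linear_combination (α (q i)) * hs
  · refine ⟨0, ?_⟩
    simp only [hpol, gpol, map_mul, map_prod, map_sub, MvPolynomial.eval₂Hom_X',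
      MvPolynomial.eval₂Hom_C, eval₂_finsetProd, eval₂_sub, eval₂_add, eval₂_mul, eval₂_C,
      eval₂_X, zero_add, pow_one]
    congr 1
    exact Finset.prod_congr rfl fun l _ => by
      linear_combination s * hr i - (u none - α (q i)) * hs

theorem hpol_dvd (α : A →+* R) (u : Option (Fin D) → R) (a : Option (Fin D)) :
    ∃ r, MvPolynomial.eval₂Hom α u (hpol q a) = r * u a := by
  rcases a with _ | i <;>
    exact ⟨_, by rw [hpol, map_mul, MvPolynomial.eval₂Hom_X', mul_comm]⟩

theorem gpol_eq (hq : Good q) (α : A →+* R) (s : R) (a : Option (Fin D)) :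
    ∃ r w : R, IsUnit w ∧ (gpol q t a).eval₂ α s = w + r * s := by
  refine ⟨(gpol q t a).divX.eval₂ α s, α ((gpol q t a).coeff 0), IsUnit.map α ?_, ?_⟩
  · rw [coeff_zero_eq_eval_zero]
    rcases a with _ | i
    · simp [gpol, eval_prod]
    · simp only [gpol, eval_prod, eval_add, eval_C, eval_mul, eval_X, mul_zero, add_zero]
      exact IsUnit.prod_iff.2 fun l hl => hq.1 i l (Finset.mem_erase.1 hl).1.symm
  · conv_lhs => rw [← divX_mul_X_add (gpol q t a)]
    rw [eval₂_add, eval₂_mul, eval₂_X, eval₂_C, add_comm]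

end Pool.Agent.MP_52bf41_ag.H31
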